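import Mathlib

set_option autoImplicit false

namespace Pool.Agent.Results.MP_c605fa_an.MaxArc

open Polynomial Set

/-- The arc-length of the graph of `P` over `[-1,1]`. -/
noncomputable def L (P : ℝ[X]) : ℝ :=
  ∫ t in (-1 : ℝ)..1, Real.sqrt (1 + (P.derivative.eval t) ^ 2)

noncomputable def g (u : ℝ) : ℝ := Real.sqrt (1 + u ^ 2)

lemma g_sq (u : ℝ) : g u ^ 2 = 1 + u ^ 2 := Real.sq_sqrt (by positivity)
lemma g_pos (u : ℝ) : 0 < g u := Real.sqrt_pos.2 (by positivity)

lemma g_mul_lt {u v : ℝ} (h : u ≠ v) : 1 + u * v < g u * g v := by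
  apply lt_of_pow_lt_pow_left₀ 2 (mul_pos (g_pos u) (g_pos v)).le
  rw [mul_pow, g_sq, g_sq]
  have : 0 < (u - v) ^ 2 := by positivity [sub_ne_zero.2 h]
  nlinarith

lemma g_conv_lt {u v θ : ℝ} (h : u ≠ v) (h0 : 0 < θ) (h1 : θ < 1) :
    g ((1 - θ) * u + θ * v) < (1 - θ) * g u + θ * g v := by
  have hp : 0 < (1 - θ) * g u + θ * g v :=
    add_pos (mul_pos (by linarith) (g_pos u)) (mul_pos h0 (g_pos v))
  apply lt_of_pow_lt_pow_left₀ 2 hp.le
  rw [g_sq]
  have e : ((1 - θ) * g u + θ * g v) ^ 2 =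
      (1 - θ) ^ 2 * g u ^ 2 + θ ^ 2 * g v ^ 2 + 2 * (θ * (1 - θ)) * (g u * g v) := by ring
  rw [e, g_sq, g_sq]
  have := mul_lt_mul_of_pos_left (g_mul_lt h) (mul_pos h0 (sub_pos.2 h1))
  nlinarith

lemma g_conv_le (u v : ℝ) {θ : ℝ} (h0 : 0 < θ) (h1 : θ < 1) :
    g ((1 - θ) * u + θ * v) ≤ (1 - θ) * g u + θ * g v := by
  by_cases h : u = v
  · subst h
    rw [show (1 - θ) * u + θ * u = u by ring]
    linarith
  · exact (g_conv_lt h h0 h1).le

lemma cont (P : ℝ[X]) : Continuous fun t => g (P.derivative.eval t) := by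
  unfold g
  have := P.derivative.continuous
  fun_prop

lemma L_eq (P : ℝ[X]) : L P = ∫ t in (-1 : ℝ)..1, g (P.derivative.eval t) := rfl

lemma der_aff (R : ℝ[X]) (θ s : ℝ) :
    ((X - C (2 * θ - 1)) * R).derivative.eval s =
      (1 - θ) * ((X - C (-1)) * R).derivative.eval s + θ * ((X - C 1) * R).derivative.eval s := by
  simp [derivative_mul]
  ring

lemma comb_int (P Q : ℝ[X]) (θ : ℝ) :
    ∫ t in (-1 : ℝ)..1, ((1 - θ) * g (P.derivative.eval t) + θ * g (Q.derivative.eval t)) =
      (1 - θ) * L P + θ * L Q := by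
  rw [intervalIntegral.integral_add (((cont P).intervalIntegrable _ _).const_mul _)
    (((cont Q).intervalIntegrable _ _).const_mul _), intervalIntegral.integral_const_mul,
    intervalIntegral.integral_const_mul, L_eq, L_eq]

lemma L_conv_le (R : ℝ[X]) {θ : ℝ} (h0 : 0 < θ) (h1 : θ < 1) :
    L ((X - C (2 * θ - 1)) * R) ≤ (1 - θ) * L ((X - C (-1)) * R) + θ * L ((X - C 1) * R) := by
  rw [← comb_int, L_eq]
  apply intervalIntegral.integral_mono_on (by norm_num) ((cont _).intervalIntegrable _ _)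
  · exact (((cont _).const_mul _).add ((cont _).const_mul _)).intervalIntegrable _ _
  · intro s _
    rw [der_aff]
    exact g_conv_le _ _ h0 h1

lemma L_conv_lt (R : ℝ[X]) (hR : 0 < R.natDegree) {θ : ℝ} (h0 : 0 < θ) (h1 : θ < 1) :
    L ((X - C (2 * θ - 1)) * R) < (1 - θ) * L ((X - C (-1)) * R) + θ * L ((X - C 1) * R) := by
  rw [← comb_int, L_eq]
  apply intervalIntegral.integral_lt_integral_of_continuousOn_of_le_of_exists_lt (by norm_num)
    (cont _).continuousOn (((cont _).const_mul _).add ((cont _).const_mul _)).continuousOn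
  · intro s _
    rw [der_aff]
    exact g_conv_le _ _ h0 h1
  · have hne : R.derivative ≠ 0 := fun h => by
      have := Polynomial.derivative_eq_zero.1 h
      omega
    have hinf : (Icc (-1 : ℝ) 1).Infinite := Icc_infinite (by norm_num)
    obtain ⟨s, hs, hs'⟩ := hinf.exists_notMem_finset R.derivative.roots.toFinset
    refine ⟨s, hs, ?_⟩
    rw [der_aff]
    apply g_conv_lt _ h0 h1
    intro h
    apply hs'
    rw [Multiset.mem_toFinset, mem_roots hne, IsRoot.def]
    simp [derivative_mul] at h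
    rcases h with h | h
    · linarith
    · exact h

lemma L_top (n : ℕ) (hn : 1 ≤ n) : (2 : ℝ) ^ n < L ((X + 1) ^ n) := by
  have h1 : ∫ t in (-1 : ℝ)..1, ((X + 1 : ℝ[X]) ^ n).derivative.eval t = 2 ^ n := by
    rw [intervalIntegral.integral_eq_sub_of_hasDerivAt (fun t _ => Polynomial.hasDerivAt _ t)
      ((Polynomial.continuous _).intervalIntegrable _ _)]
    simp [show n ≠ 0 by omega]
    norm_num
  rw [← h1, L_eq]
  have key : ∀ u : ℝ, u < g u := fun u => Real.lt_sqrt_of_sq_lt (by linarith)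
  exact intervalIntegral.integral_lt_integral_of_continuousOn_of_le_of_exists_lt (by norm_num)
    (Polynomial.continuous _).continuousOn (cont _).continuousOn (fun s _ => (key _).le)
    ⟨0, by norm_num, key _⟩

lemma L_sym (n : ℕ) : L ((X - 1) ^ n) = L ((X + 1) ^ n) := by
  have h := intervalIntegral.integral_comp_neg (a := -1) (b := 1)
    (fun t => g (((X + 1 : ℝ[X]) ^ n).derivative.eval t))
  simp only [neg_neg] at h
  rw [L_eq, L_eq, ← h]
  congr 1
  funext t
  unfold g
  congr 2
  simp only [derivative_pow, eval_mul, eval_C, eval_pow, eval_sub, eval_add, eval_X, eval_one,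
    derivative_sub, derivative_add, derivative_X, derivative_one, sub_zero, add_zero, mul_one]
  rw [mul_pow, mul_pow, ← pow_mul, ← pow_mul, mul_comm _ 2, pow_mul, pow_mul]
  congr 2
  ring

lemma L_mixed (a b : ℕ) : L ((X + 1) ^ (a + 1) * (X - 1) ^ (b + 1)) ≤ 2 + 2 ^ (a + b + 1) := by
  set P : ℝ[X] := (X + 1) ^ (a + 1) * (X - 1) ^ (b + 1) with hP
  let Q : ℝ[X] := (X + 1) ^ (a + 1) * (1 - X) ^ (b + 1)
  have hQ' : ∀ t, Q.derivative.eval t =
      (t + 1) ^ a * (1 - t) ^ b * ((a + 1) * (1 - t) - (b + 1) * (t + 1)) := by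
    intro t
    simp [Q, derivative_mul, derivative_pow]
    ring
  have hPQ : ∀ t, |P.derivative.eval t| = |Q.derivative.eval t| := by
    intro t
    have : P = C ((-1) ^ (b + 1)) * Q := by
      rw [hP]
      simp only [Q, map_pow, map_neg, map_one]
      rw [show (X - 1 : ℝ[X]) = -1 * (1 - X) by ring, mul_pow]
      ring
    rw [this, derivative_C_mul, eval_mul, eval_C, abs_mul, abs_pow, abs_neg, abs_one, one_pow,
      one_mul]
  set c : ℝ := (a - b) / (a + b + 2) with hc
  have hden : (0 : ℝ) < a + b + 2 := by positivity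
  have hc1 : -1 ≤ c := by
    rw [hc, le_div_iff₀ hden]
    have : (0 : ℝ) ≤ a := by positivity
    linarith
  have hc2 : c ≤ 1 := by
    rw [hc, div_le_iff₀ hden]
    have : (0 : ℝ) ≤ b := by positivity
    linarith
  have hca : Continuous fun t => |Q.derivative.eval t| := (Polynomial.continuous _).abs
  have i1 : ∫ t in (-1 : ℝ)..c, |Q.derivative.eval t| = Q.eval c := by
    rw [intervalIntegral.integral_congr (g := fun t => Q.derivative.eval t),
      intervalIntegral.integral_eq_sub_of_hasDerivAt (fun t _ => Polynomial.hasDerivAt _ t)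
      ((Polynomial.continuous _).intervalIntegrable _ _)]
    · simp [Q]
    · intro t ht
      rw [uIcc_of_le hc1] at ht
      apply abs_of_nonneg
      rw [hQ']
      have h1 : 0 ≤ t + 1 := by linarith [ht.1]
      have h2 : 0 ≤ 1 - t := by linarith [ht.2]
      have h3 := ht.2
      rw [hc, le_div_iff₀ hden] at h3
      exact mul_nonneg (by positivity) (by linarith)
  have i2 : ∫ t in c..1, |Q.derivative.eval t| = Q.eval c := by
    rw [intervalIntegral.integral_congr (g := fun t => -Q.derivative.eval t),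
      intervalIntegral.integral_neg,
      intervalIntegral.integral_eq_sub_of_hasDerivAt (fun t _ => Polynomial.hasDerivAt _ t)
      ((Polynomial.continuous _).intervalIntegrable _ _)]
    · simp [Q]
    · intro t ht
      rw [uIcc_of_le hc2] at ht
      apply abs_of_nonpos
      rw [hQ']
      have h1 : 0 ≤ t + 1 := by linarith [ht.1]
      have h2 : 0 ≤ 1 - t := by linarith [ht.2]
      have h3 := ht.1
      rw [hc, div_le_iff₀ hden] at h3
      exact mul_nonpos_of_nonneg_of_nonpos (by positivity) (by linarith)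
  have i3 : Q.eval c ≤ 2 ^ (a + b) := by
    have h1 : 0 ≤ c + 1 := by linarith
    have h2 : 0 ≤ 1 - c := by linarith
    have e : Q.eval c = (c + 1) ^ a * (1 - c) ^ b * ((c + 1) * (1 - c)) := by
      simp [Q]; ring
    rw [e, pow_add]
    have k1 : (c + 1) ^ a ≤ 2 ^ a := pow_le_pow_left₀ h1 (by linarith) _
    have k2 : (1 - c) ^ b ≤ 2 ^ b := pow_le_pow_left₀ h2 (by linarith) _
    have k3 : (c + 1) * (1 - c) ≤ 1 := by nlinarith [sq_nonneg c]
    calc (c + 1) ^ a * (1 - c) ^ b * ((c + 1) * (1 - c)) ≤ 2 ^ a * 2 ^ b * 1 := by gcongr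
      _ = _ := mul_one _
  have i4 : L P ≤ ∫ t in (-1 : ℝ)..1, (1 + |Q.derivative.eval t|) := by
    rw [L_eq]
    apply intervalIntegral.integral_mono_on (by norm_num) ((cont _).intervalIntegrable _ _)
      ((continuous_const.add hca).intervalIntegrable _ _)
    intro t _
    change g _ ≤ 1 + |Q.derivative.eval t|
    rw [← hPQ]
    refine Real.sqrt_le_iff.2 ⟨by positivity, ?_⟩
    have := abs_nonneg (P.derivative.eval t)
    have := sq_abs (P.derivative.eval t)
    nlinarith
  rw [intervalIntegral.integral_add (by simp) (hca.intervalIntegrable _ _),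
    ← intervalIntegral.integral_add_adjacent_intervals (b := c) (hca.intervalIntegrable _ _)
      (hca.intervalIntegrable _ _), i1, i2] at i4
  simp only [intervalIntegral.integral_const, smul_eq_mul, mul_one] at i4
  rw [pow_succ]
  linarith

noncomputable def pr {n : ℕ} (x : Fin n → ℝ) : ℝ[X] := ∏ i, (X - C (x i))

lemma pr_update {n : ℕ} (x : Fin n → ℝ) (j : Fin n) (t : ℝ) :
    pr (Function.update x j t) = (X - C t) * ∏ i ∈ Finset.univ.erase j, (X - C (x i)) := by
  unfold pr
  rw [← Finset.mul_prod_erase _ _ (Finset.mem_univ j), Function.update_self]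
  congr 1
  exact Finset.prod_congr rfl fun i hi => by
    rw [Function.update_of_ne (Finset.ne_of_mem_erase hi)]

lemma vertex {n : ℕ} (hn : 2 ≤ n) (x : Fin n → ℝ) (hx : ∀ i, x i = -1 ∨ x i = 1) :
    L (pr x) < L ((X + 1) ^ n) ∨ (∀ i, x i = -1) ∨ ∀ i, x i = 1 := by
  classical
  by_cases h1 : ∀ i, x i = -1
  · exact Or.inr (Or.inl h1)
  by_cases h2 : ∀ i, x i = 1
  · exact Or.inr (Or.inr h2)
  left
  push Not at h1 h2
  obtain ⟨i1, hi1⟩ := h1
  obtain ⟨i2, hi2⟩ := h2
  have hA : 0 < (Finset.univ.filter fun i => x i = -1).card :=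
    Finset.card_pos.2 ⟨i2, by simpa using (hx i2).resolve_right hi2⟩
  have hB : 0 < (Finset.univ.filter fun i => ¬ x i = -1).card :=
    Finset.card_pos.2 ⟨i1, by simpa using hi1⟩
  have hAB := Finset.card_filter_add_card_filter_not (s := Finset.univ) (fun i => x i = -1)
  obtain ⟨a, ha⟩ := Nat.exists_eq_succ_of_ne_zero hA.ne'
  obtain ⟨b, hb⟩ := Nat.exists_eq_succ_of_ne_zero hB.ne'
  have e : pr x = (X + 1) ^ (a + 1) * (X - 1) ^ (b + 1) := by
    unfold pr
    rw [← Finset.prod_filter_mul_prod_filter_not Finset.univ (fun i => x i = -1)]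
    congr 1
    · rw [Finset.prod_congr rfl (g := fun _ => (X + 1 : ℝ[X])), Finset.prod_const, ha]
      intro i hi
      rw [(Finset.mem_filter.1 hi).2]
      simp
    · rw [Finset.prod_congr rfl (g := fun _ => (X - 1 : ℝ[X])), Finset.prod_const, hb]
      intro i hi
      rw [(hx i).resolve_left (Finset.mem_filter.1 hi).2]
      simp
  rw [ha, hb, Finset.card_univ, Fintype.card_fin] at hAB
  have h3 := L_mixed a b
  have h4 := L_top n (by omega)
  have h5 : (2 : ℝ) ≤ 2 ^ (a + b + 1) := by
    rw [pow_succ]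
    have : (1 : ℝ) ≤ 2 ^ (a + b) := one_le_pow₀ (by norm_num)
    linarith
  rw [show n = a + b + 1 + 1 by omega, pow_succ] at h4
  rw [e, show n = a + b + 1 + 1 by omega]
  linarith

lemma pr_neg {n : ℕ} (x : Fin n → ℝ) (h : ∀ i, x i = -1) : pr x = (X + 1) ^ n := by
  simp [pr, h]

lemma pr_pos {n : ℕ} (x : Fin n → ℝ) (h : ∀ i, x i = 1) : pr x = (X - 1) ^ n := by
  simp [pr, h]

lemma upper {n : ℕ} (hn : 2 ≤ n) (s : Finset (Fin n)) : ∀ x : Fin n → ℝ,
    (∀ i, x i ∈ Icc (-1 : ℝ) 1) → (∀ i, i ∉ s → x i = -1 ∨ x i = 1) →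
      L (pr x) ≤ L ((X + 1) ^ n) := by
  induction s using Finset.induction_on with
  | empty =>
    intro x _ hx
    rcases vertex hn x (fun i => hx i (by simp)) with h | h | h
    · exact h.le
    · rw [pr_neg x h]
    · rw [pr_pos x h, L_sym]
  | insert j s hj ih =>
    intro x hx hs
    have hu : ∀ t : ℝ, t = -1 ∨ t = 1 → L (pr (Function.update x j t)) ≤ L ((X + 1) ^ n) := by
      intro t ht
      apply ih
      · intro i
        by_cases hi : i = j
        · subst hi
          rw [Function.update_self]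
          rcases ht with rfl | rfl <;> norm_num
        · rw [Function.update_of_ne hi]; exact hx i
      · intro i hi
        by_cases hij : i = j
        · subst hij
          rwa [Function.update_self]
        · rw [Function.update_of_ne hij]; exact hs i (by simp [hij, hi])
    by_cases hv : x j = -1 ∨ x j = 1
    · simpa using hu _ hv
    · push Not at hv
      have h0 : 0 < (x j + 1) / 2 := by have := lt_of_le_of_ne (hx j).1 hv.1.symm; linarith
      have h1 : (x j + 1) / 2 < 1 := by have := lt_of_le_of_ne (hx j).2 hv.2; linarith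
      have h2 := L_conv_le (∏ i ∈ Finset.univ.erase j, (X - C (x i))) h0 h1
      rw [← pr_update, ← pr_update, ← pr_update,
        show 2 * ((x j + 1) / 2) - 1 = x j by ring, Function.update_eq_self] at h2
      have h3 := hu _ (Or.inl rfl)
      have h4 := hu _ (Or.inr rfl)
      nlinarith

/-- For `n ≥ 2`, among monic degree `n` polynomials with all zeros in `[-1,1]` the arc-length over
`[-1,1]` is at most that of `(x+1)^n`, with equality exactly for `(x+1)^n` and `(x-1)^n`. -/
theorem result (n : ℕ) (hn : 2 ≤ n) (x : Fin n → ℝ) (hx : ∀ i, x i ∈ Set.Icc (-1 : ℝ) 1) :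
    L (∏ i, (X - C (x i))) ≤ L ((X + 1) ^ n) ∧
      (L (∏ i, (X - C (x i))) = L ((X + 1) ^ n) ↔ (∀ i, x i = -1) ∨ ∀ i, x i = 1) := by
  change L (pr x) ≤ _ ∧ (L (pr x) = _ ↔ _)
  refine ⟨upper hn Finset.univ x hx (by simp), fun h => ?_, ?_⟩
  · by_cases hv : ∀ i, x i = -1 ∨ x i = 1
    · exact (vertex hn x hv).resolve_left (by rw [h]; exact lt_irrefl _)
    · exfalso
      push Not at hv
      obtain ⟨j, hv⟩ := hv
      have h0 : 0 < (x j + 1) / 2 := by have := lt_of_le_of_ne (hx j).1 hv.1.symm; linarith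
      have h1 : (x j + 1) / 2 < 1 := by have := lt_of_le_of_ne (hx j).2 hv.2; linarith
      have hd : 0 < (∏ i ∈ Finset.univ.erase j, (X - C (x i) : ℝ[X])).natDegree := by
        rw [natDegree_prod_of_monic _ _ (fun i _ => monic_X_sub_C _)]
        simp
        omega
      have h2 := L_conv_lt _ hd h0 h1
      rw [← pr_update, ← pr_update, ← pr_update,
        show 2 * ((x j + 1) / 2) - 1 = x j by ring, Function.update_eq_self] at h2
      have hu : ∀ t : ℝ, t ∈ Icc (-1 : ℝ) 1 →
          L (pr (Function.update x j t)) ≤ L ((X + 1) ^ n) := by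
        intro t ht
        refine upper hn Finset.univ _ (fun i => ?_) (by simp)
        by_cases hi : i = j
        · subst hi; rwa [Function.update_self]
        · rw [Function.update_of_ne hi]; exact hx i
      have h3 := hu (-1) (by norm_num)
      have h4 := hu 1 (by norm_num)
      nlinarith
  · rintro (h | h)
    · rw [pr_neg x h]
    · rw [pr_pos x h, L_sym]

end Pool.Agent.Results.MP_c605fa_an.MaxArc
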